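import Mathlib

open Polynomial Real MeasureTheory Filter Set Topology

namespace Pool.Agent.Results.MP_6d4084_an.LimsupEqK

/-- The disk norm: the maximum of `|q(z)|` over the closed unit disk. -/
noncomputable def diskNorm (q : ℂ[X]) : ℝ :=
  sSup ((fun z : ℂ => ‖q.eval z‖) '' Metric.closedBall (0 : ℂ) 1)

/-- The Bombieri supremum norm `max_{0 ≤ j ≤ n} |a_j| / choose n j` of a polynomial
of degree `n`. -/
noncomputable def bombieriNorm (p : ℂ[X]) : ℝ :=
  (Finset.range (p.natDegree + 1)).sup' Finset.nonempty_range_add_one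
    (fun j => ‖p.coeff j‖ / (p.natDegree.choose j : ℝ))

/-- `S n`: supremum of `diskNorm q / bombieriNorm p` over monic `p` of degree `n` and
monic divisors `q` of `p` (as an extended nonnegative real). -/
noncomputable def S (n : ℕ) : ENNReal :=
  ⨆ (p : ℂ[X]) (q : ℂ[X]) (_ : p.Monic) (_ : p.natDegree = n) (_ : q.Monic) (_ : q ∣ p),
    ENNReal.ofReal (diskNorm q / bombieriNorm p)

/-- The constant `K = M(1 + |x + 1|)`. -/
noncomputable def K : ℝ :=
  Real.exp (1 / (2 * π) * ∫ t in (0 : ℝ)..(2 * π), Real.log (1 + ‖1 + Complex.exp (t * Complex.I)‖))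

theorem exists_ge_circleAverage {h : ℂ → ℝ} (hh : CircleIntegrable h 0 1) :
    ∃ ξ : ℂ, ‖ξ‖ = 1 ∧ circleAverage h 0 1 ≤ h ξ := by
  rw [circleAverage_eq_intervalAverage]
  have h2 : (0:ℝ) ≤ 2 * π := by positivity
  rw [Set.uIoc_of_le h2]
  have := exists_setAverage_le (μ := volume) (s := Set.Ioc 0 (2 * π))
    (f := fun θ => h (circleMap 0 1 θ)) (by simp [pi_pos]) measure_Ioc_lt_top.ne ?_
  · obtain ⟨x, hx, h3⟩ := this
    exact ⟨circleMap 0 1 x, by simp, h3⟩
  · have := hh
    rw [CircleIntegrable, intervalIntegrable_iff_integrableOn_Ioc_of_le h2] at this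
    exact this

theorem avg_log_norm_add_mul (a b : ℂ) (hab : a ≠ 0 ∨ b ≠ 0) :
    circleAverage (fun ξ : ℂ => Real.log ‖a + ξ * b‖) 0 1 = Real.log (max ‖a‖ ‖b‖) := by
  by_cases hb : b = 0
  · subst hb
    simp [circleAverage_const]
  · have h1 := mahlerMeasure_C_mul_X_add_C hb a
    have h2 : (C b * X + C a).logMahlerMeasure = Real.log (max ‖b‖ ‖a‖) := by
      rw [logMahlerMeasure_eq_log_MahlerMeasure, h1]
    rw [max_comm, ← h2, logMahlerMeasure_def]
    congr 1
    ext ξ
    congr 2
    simp only [eval_add, eval_mul, eval_C, eval_X]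
    ring

theorem le_avg_log_max (a b : ℂ) (R : ℝ) (hR : 1 ≤ R) :
    Real.log (max (max ‖a‖ ‖b‖) R) ≤ circleAverage (fun ξ : ℂ => Real.log (max ‖a + ξ * b‖ R)) 0 1 := by
  have hcont : Continuous (fun ξ : ℂ => Real.log (max ‖a + ξ * b‖ R)) := by
    apply Continuous.log
    · fun_prop
    · intro x
      have : 0 < max ‖a + x * b‖ R := lt_of_lt_of_le (by linarith) (le_max_right _ _)
      exact this.ne'
  have hint : CircleIntegrable (fun ξ : ℂ => Real.log (max ‖a + ξ * b‖ R)) 0 1 :=
    hcont.continuousOn.circleIntegrable'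
  rcases le_total (max ‖a‖ ‖b‖) R with h | h
  · rw [max_eq_right h]
    rw [← circleAverage_const (Real.log R) (0:ℂ) 1]
    apply circleAverage_mono (circleIntegrable_const _ _ _) hint
    intro x _
    apply Real.log_le_log (by linarith) (le_max_right _ _)
  · rw [max_eq_left h]
    have hab : a ≠ 0 ∨ b ≠ 0 := by
      by_contra hcon
      push Not at hcon
      rw [hcon.1, hcon.2] at h
      simp at h
      linarith
    rw [← avg_log_norm_add_mul a b hab]
    apply circleAverage_mono _ hint
    · intro x _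
      by_cases hx : ‖a + x * b‖ = 0
      · rw [hx, Real.log_zero]
        apply Real.log_nonneg
        exact le_max_of_le_right hR
      · apply Real.log_le_log
        · exact lt_of_le_of_ne (norm_nonneg _) (Ne.symm hx)
        · exact le_max_left _ _
    · apply MeromorphicOn.circleIntegrable_log_norm
      intro z hz
      fun_prop

theorem step {A B : ℂ → ℂ} (hA : Continuous A) (hB : Continuous B) {R : ℂ → ℝ}
    (hR : Continuous R) (h1 : ∀ w, 1 ≤ R w) :
    ∃ ξ : ℂ, ‖ξ‖ = 1 ∧
      circleAverage (fun w => Real.log (max (max ‖A w‖ ‖B w‖) (R w))) 0 1 ≤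
      circleAverage (fun w => Real.log (max ‖A w + ξ * B w‖ (R w))) 0 1 := by
  set F : ℂ → ℂ → ℝ := fun ξ w => Real.log (max ‖A w + ξ * B w‖ (R w)) with hF
  have hFc : Continuous (Function.uncurry F) := by
    simp only [hF, Function.uncurry_def]
    apply Continuous.log
    · fun_prop
    · intro x
      have : 0 < max ‖A x.2 + x.1 * B x.2‖ (R x.2) :=
        lt_of_lt_of_le (by linarith [h1 x.2]) (le_max_right _ _)
      exact this.ne'
  have hGc : Continuous (fun p : ℝ × ℝ => F (circleMap 0 1 p.1) (circleMap 0 1 p.2)) := by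
    have : (fun p : ℝ × ℝ => F (circleMap 0 1 p.1) (circleMap 0 1 p.2)) =
      Function.uncurry F ∘ (fun p : ℝ × ℝ => (circleMap 0 1 p.1, circleMap 0 1 p.2)) := rfl
    rw [this]
    apply hFc.comp
    fun_prop
  have hswap : circleAverage (fun ξ => circleAverage (F ξ) 0 1) 0 1 =
      circleAverage (fun w => circleAverage (fun ξ => F ξ w) 0 1) 0 1 := by
    simp only [circleAverage_def, smul_eq_mul, intervalIntegral.integral_const_mul]
    congr 2
    apply intervalIntegral_intervalIntegral_swap
    have : IntegrableOn (Function.uncurry fun x y => F (circleMap 0 1 x) (circleMap 0 1 y))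
        (Set.uIcc 0 (2 * π) ×ˢ Set.uIcc 0 (2 * π)) := by
      apply ContinuousOn.integrableOn_compact
      · exact isCompact_uIcc.prod isCompact_uIcc
      · exact hGc.continuousOn
    exact this.mono_set (Set.prod_mono Set.uIoc_subset_uIcc Set.uIoc_subset_uIcc)
  have hcont1 : Continuous (fun ξ => circleAverage (F ξ) 0 1) := by
    simp only [circleAverage_def, smul_eq_mul]
    apply Continuous.mul continuous_const
    apply intervalIntegral.continuous_parametric_intervalIntegral_of_continuous'
    have : (Function.uncurry fun (x : ℂ) (t : ℝ) => F x (circleMap 0 1 t)) =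
      Function.uncurry F ∘ (fun p : ℂ × ℝ => (p.1, circleMap 0 1 p.2)) := rfl
    rw [this]
    apply hFc.comp
    fun_prop
  have hcont2 : Continuous (fun w => circleAverage (fun ξ => F ξ w) 0 1) := by
    simp only [circleAverage_def, smul_eq_mul]
    apply Continuous.mul continuous_const
    apply intervalIntegral.continuous_parametric_intervalIntegral_of_continuous'
    have : (Function.uncurry fun (x : ℂ) (t : ℝ) => F (circleMap 0 1 t) x) =
      Function.uncurry F ∘ (fun p : ℂ × ℝ => (circleMap 0 1 p.2, p.1)) := rfl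
    rw [this]
    apply hFc.comp
    fun_prop
  obtain ⟨ξ, hξ, h2⟩ := exists_ge_circleAverage (h := fun ξ => circleAverage (F ξ) 0 1)
    hcont1.continuousOn.circleIntegrable'
  refine ⟨ξ, hξ, le_trans ?_ h2⟩
  rw [hswap]
  apply circleAverage_mono
  · apply Continuous.continuousOn ?_ |>.circleIntegrable'
    apply Continuous.log
    · fun_prop
    · intro x
      have : 0 < max (max ‖A x‖ ‖B x‖) (R x) :=
        lt_of_lt_of_le (by linarith [h1 x]) (le_max_right _ _)
      exact this.ne'
  · exact hcont2.continuousOn.circleIntegrable'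
  · intro w _
    exact le_avg_log_max (A w) (B w) (R w) (h1 w)

/-- running maximum of the moduli of the terms `choose n j * (1+w)^j`, `j ≤ m` -/
noncomputable def M (n : ℕ) : ℕ → ℂ → ℝ
  | 0, _ => 1
  | (m+1), w => max ‖((n.choose (m+1) : ℕ) : ℂ) * (1 + w) ^ (m+1)‖ (M n m w)

theorem one_le_M (n m : ℕ) (w : ℂ) : 1 ≤ M n m w := by
  induction m with
  | zero => simp [M]
  | succ m ih => exact le_max_of_le_right ih

theorem continuous_M (n m : ℕ) : Continuous (M n m) := by
  induction m with
  | zero => simp only [M]; exact continuous_const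
  | succ m ih =>
    simp only [M]
    apply Continuous.max _ ih
    fun_prop

theorem le_M (n m j : ℕ) (hj : j ≤ m) (w : ℂ) :
    ‖((n.choose j : ℕ) : ℂ) * (1 + w) ^ j‖ ≤ M n m w := by
  induction m with
  | zero =>
    have : j = 0 := by omega
    subst this
    simp [M]
  | succ m ih =>
    rcases Nat.lt_or_ge j (m+1) with h | h
    · exact le_max_of_le_right (ih (by omega))
    · have : j = m + 1 := by omega
      subst this
      exact le_max_left _ _

theorem choose_phases (n m : ℕ) (A : ℂ[X]) :
    ∃ ξ : ℕ → ℂ, (∀ j, ‖ξ j‖ = 1) ∧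
      circleAverage (fun w => Real.log (max ‖A.eval w‖ (M n m w))) 0 1 ≤
      circleAverage (fun w => Real.log ‖(A + ∑ j ∈ Finset.range (m+1),
        C (ξ j * ((n.choose j : ℕ) : ℂ)) * (1 + X) ^ j).eval w‖) 0 1 := by
  induction m generalizing A with
  | zero =>
    have hmer : Meromorphic (fun z => A.eval z) := by
      intro z
      have : AnalyticAt ℂ (fun z => A.eval z) z := by
        exact (analyticOnNhd_id.aeval_polynomial A) z (Set.mem_univ z)
      exact this.meromorphicAt
    have h1 := ValueDistribution.circleIntegrable_circleAverage_log_norm_sub (R := 1) hmer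
    have h2 := congrFun (ValueDistribution.circleAverage_circleAverage_eq_proximity_top hmer) 1
    obtain ⟨ξ, hξ, h3⟩ := exists_ge_circleAverage h1
    refine ⟨fun _ => -ξ, fun _ => by simpa using hξ, ?_⟩
    have h4 : circleAverage (fun w => Real.log (max ‖A.eval w‖ (M n 0 w))) 0 1 =
        ValueDistribution.proximity (fun z => A.eval z) ⊤ 1 := by
      rw [ValueDistribution.proximity_top]
      congr 1
      ext w
      simp only [M]
      rw [posLog_eq_log_max_one (norm_nonneg _), max_comm]
    rw [h4, ← h2]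
    refine le_trans h3 (le_of_eq ?_)
    congr 1
    ext w
    simp [sub_eq_add_neg]
  | succ m ih =>
    obtain ⟨ξ0, hξ0, h1⟩ := step (A := fun w => A.eval w)
      (B := fun w => ((n.choose (m+1) : ℕ) : ℂ) * (1 + w) ^ (m+1)) (R := M n m)
      (by fun_prop) (by fun_prop) (continuous_M n m) (one_le_M n m)
    obtain ⟨ξ, hξ, h2⟩ := ih (A + C (ξ0 * ((n.choose (m+1) : ℕ) : ℂ)) * (1 + X) ^ (m+1))
    refine ⟨fun j => if j = m + 1 then ξ0 else ξ j, ?_, ?_⟩
    · intro j
      dsimp only
      split_ifs
      · exact hξ0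
      · exact hξ j
    · refine le_trans (le_of_eq ?_) (le_trans h1 (le_trans (le_of_eq ?_) (le_trans h2 (le_of_eq ?_))))
      · congr 1
        ext w
        simp only [M, max_assoc]
      · congr 1
        ext w
        simp [mul_assoc]
      · congr 1
        ext w
        rw [Finset.sum_range_succ _ (m+1)]
        congr 3
        rw [add_assoc]
        congr 1
        rw [add_comm]
        congr 1
        · apply Finset.sum_congr rfl
          intro j hj
          rw [Finset.mem_range] at hj
          dsimp only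
          rw [if_neg (by omega)]
        · simp

theorem log_K : Real.log K = circleAverage (fun w : ℂ => Real.log (1 + ‖1 + w‖)) 0 1 := by
  rw [K, Real.log_exp, circleAverage_def, smul_eq_mul, one_div]
  congr 1
  apply intervalIntegral.integral_congr
  intro t _
  simp [circleMap]

theorem K_pos : 0 < K := Real.exp_pos _

theorem continuous_logker : Continuous (fun w : ℂ => Real.log (1 + ‖1 + w‖)) := by
  apply Continuous.log
  · fun_prop
  · intro x
    positivity

theorem mahler_shift (p : ℂ[X]) (hp : p.Monic) (z : ℂ) (hz : ‖z‖ = 1) :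
    (p.comp (C z * X + C z)).mahlerMeasure = (p.roots.map (fun α => max 1 ‖z - α‖)).prod := by
  have h1 : p = (p.roots.map (fun α => X - C α)).prod := by
    have := (IsAlgClosed.splits p).eq_prod_roots
    rw [hp.leadingCoeff] at this
    simpa using this
  conv_lhs => rw [h1]
  rw [Polynomial.multiset_prod_comp, prod_mahlerMeasure_eq_mahlerMeasure_prod, Multiset.map_map,
    Multiset.map_map]
  congr 1
  apply Multiset.map_congr rfl
  intro α _
  simp only [Function.comp]
  have h2 : (X - C α).comp (C z * X + C z) = C z * X + C (z - α) := by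
    simp only [sub_comp, X_comp, C_comp, C_sub]
    ring
  have hz0 : z ≠ 0 := by
    intro h
    rw [h] at hz
    simp at hz
  rw [h2, mahlerMeasure_C_mul_X_add_C hz0, hz]

theorem coeff_le (p : ℂ[X]) (n : ℕ) (hn : p.natDegree = n) (j : ℕ) (hj : j ∈ Finset.range (n + 1)) :
    ‖p.coeff j‖ ≤ bombieriNorm p * (n.choose j : ℝ) := by
  have h1 : ‖p.coeff j‖ / (n.choose j : ℝ) ≤ bombieriNorm p := by
    subst hn
    exact Finset.le_sup' (fun j => ‖p.coeff j‖ / (p.natDegree.choose j : ℝ)) hj
  have h2 : (0:ℝ) < (n.choose j : ℝ) := by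
    have : 0 < n.choose j := Nat.choose_pos (by simpa [Nat.lt_succ_iff] using hj)
    exact_mod_cast this
  rwa [div_le_iff₀ h2] at h1

theorem one_le_bombieriNorm (p : ℂ[X]) (hp : p.Monic) : 1 ≤ bombieriNorm p := by
  have := coeff_le p _ rfl p.natDegree (by simp)
  have h2 : p.coeff p.natDegree = 1 := hp
  rw [h2] at this
  simpa using this

theorem norm_eval_le (p : ℂ[X]) (n : ℕ) (hn : p.natDegree = n) (w : ℂ) :
    ‖p.eval w‖ ≤ bombieriNorm p * (1 + ‖w‖) ^ n := by
  rw [Polynomial.eval_eq_sum_range, hn]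
  refine (norm_sum_le _ _).trans ?_
  have h1 : (1 + ‖w‖) ^ n = ∑ j ∈ Finset.range (n + 1), (n.choose j : ℝ) * ‖w‖ ^ j := by
    rw [add_comm, add_pow]
    apply Finset.sum_congr rfl
    intro j _
    rw [one_pow]
    ring
  rw [h1, Finset.mul_sum]
  apply Finset.sum_le_sum
  intro j hj
  rw [norm_mul, norm_pow]
  calc ‖p.coeff j‖ * ‖w‖ ^ j ≤ (bombieriNorm p * (n.choose j : ℝ)) * ‖w‖ ^ j := by
        gcongr
        exact coeff_le p n hn j hj
    _ = _ := by ring

theorem mahler_shift_le (p : ℂ[X]) (hp : p.Monic) (n : ℕ) (hn : p.natDegree = n) (z : ℂ)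
    (hz : ‖z‖ = 1) : (p.comp (C z * X + C z)).mahlerMeasure ≤ K ^ n * bombieriNorm p := by
  have hz0 : z ≠ 0 := by
    intro h
    rw [h] at hz
    simp at hz
  have hB := one_le_bombieriNorm p hp
  have hpos : 0 < (p.comp (C z * X + C z)).mahlerMeasure := by
    rw [mahler_shift p hp z hz]
    apply Multiset.prod_pos
    intro a ha
    rw [Multiset.mem_map] at ha
    obtain ⟨α, _, rfl⟩ := ha
    exact lt_of_lt_of_le one_pos (le_max_left _ _)
  rw [← Real.log_le_log_iff hpos (by have := K_pos; positivity)]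
  rw [← logMahlerMeasure_eq_log_MahlerMeasure, logMahlerMeasure_def,
    Real.log_mul (by have := K_pos; positivity) (by positivity), Real.log_pow, log_K]
  have hrhs : (n : ℝ) * circleAverage (fun w : ℂ => Real.log (1 + ‖1 + w‖)) 0 1 +
      Real.log (bombieriNorm p) =
      circleAverage (fun w : ℂ => (n : ℝ) • Real.log (1 + ‖1 + w‖) + Real.log (bombieriNorm p)) 0 1 := by
    rw [circleAverage_fun_add, circleAverage_const, circleAverage_fun_smul, smul_eq_mul]
    · have hc : Continuous (fun w : ℂ => (n : ℝ) • Real.log (1 + ‖1 + w‖)) := by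
        have := continuous_logker
        fun_prop
      exact hc.continuousOn.circleIntegrable'
    · exact circleIntegrable_const _ _ _
  rw [hrhs]
  apply circleAverage_mono
  · exact (analyticOnNhd_id.aeval_polynomial _).meromorphicOn.circleIntegrable_log_norm
  · have hc : Continuous (fun w : ℂ => (n : ℝ) • Real.log (1 + ‖1 + w‖) +
        Real.log (bombieriNorm p)) := by
      have := continuous_logker
      fun_prop
    exact hc.continuousOn.circleIntegrable'
  · intro w _
    have h1 : ‖(p.comp (C z * X + C z)).eval w‖ ≤ bombieriNorm p * (1 + ‖1 + w‖) ^ n := by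
      rw [eval_comp]
      refine (norm_eval_le p n hn _).trans (le_of_eq ?_)
      congr 3
      simp only [eval_add, eval_mul, eval_C, eval_X]
      rw [show z * w + z = z * (1 + w) by ring, norm_mul, hz, one_mul]
    have h2 : (1:ℝ) ≤ (1 + ‖1 + w‖) ^ n := one_le_pow₀ (by linarith [norm_nonneg (1 + w)])
    have h3 : (n : ℝ) • Real.log (1 + ‖1 + w‖) + Real.log (bombieriNorm p) =
        Real.log (bombieriNorm p * (1 + ‖1 + w‖) ^ n) := by
      rw [Real.log_mul (by positivity) (by positivity), Real.log_pow, smul_eq_mul]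
      ring
    rw [h3]
    by_cases h0 : ‖(p.comp (C z * X + C z)).eval w‖ = 0
    · rw [h0, Real.log_zero]
      apply Real.log_nonneg
      nlinarith
    · exact Real.log_le_log (lt_of_le_of_ne (norm_nonneg _) (Ne.symm h0)) h1

theorem prod_roots_le {p q : ℂ[X]} (hp : p.Monic) (hqp : q ∣ p) (z : ℂ) :
    (q.roots.map (fun α => max 1 ‖z - α‖)).prod ≤ (p.roots.map (fun α => max 1 ‖z - α‖)).prod := by
  have h1 : q.roots ≤ p.roots := Polynomial.roots.le_of_dvd hp.ne_zero hqp
  obtain ⟨u, hu⟩ := Multiset.le_iff_exists_add.mp h1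
  rw [hu, Multiset.map_add, Multiset.prod_add]
  have h2 : 1 ≤ (u.map (fun α => max 1 ‖z - α‖)).prod := by
    apply Multiset.one_le_prod
    intro a ha
    rw [Multiset.mem_map] at ha
    obtain ⟨α, _, rfl⟩ := ha
    exact le_max_left _ _
  have h3 : 0 ≤ (q.roots.map (fun α => max 1 ‖z - α‖)).prod := by
    apply Multiset.prod_nonneg
    intro a ha
    rw [Multiset.mem_map] at ha
    obtain ⟨α, _, rfl⟩ := ha
    exact le_max_of_le_left zero_le_one
  exact le_mul_of_one_le_right h3 h2

theorem norm_eval_eq_prod {q : ℂ[X]} (hq : q.Monic) (z : ℂ) :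
    ‖q.eval z‖ = (q.roots.map (fun α => ‖z - α‖)).prod := by
  have h1 : q = (q.roots.map (fun α => X - C α)).prod := by
    have := (IsAlgClosed.splits q).eq_prod_roots
    rw [hq.leadingCoeff] at this
    simpa using this
  conv_lhs => rw [h1]
  rw [eval_multiset_prod, Multiset.map_map]
  have h2 : ∀ s : Multiset ℂ, ‖(Multiset.map (eval z ∘ fun α => X - C α) s).prod‖ =
      (s.map (fun α => ‖z - α‖)).prod := by
    intro s
    induction s using Multiset.induction_on with
    | empty => simp
    | cons a s ih =>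
      rw [Multiset.map_cons, Multiset.prod_cons, norm_mul, ih, Multiset.map_cons,
        Multiset.prod_cons]
      simp
  exact h2 _

theorem norm_eval_le_circle {p q : ℂ[X]} (hp : p.Monic) (n : ℕ) (hn : p.natDegree = n)
    (hq : q.Monic) (hqp : q ∣ p) (z : ℂ) (hz : ‖z‖ = 1) :
    ‖q.eval z‖ ≤ K ^ n * bombieriNorm p := by
  rw [norm_eval_eq_prod hq]
  refine le_trans ?_ (mahler_shift_le p hp n hn z hz)
  rw [mahler_shift p hp z hz]
  refine le_trans ?_ (prod_roots_le hp hqp z)
  apply Multiset.prod_map_le_prod_map₀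
  · intro a _
    exact norm_nonneg _
  · intro a _
    exact le_max_right _ _

theorem norm_eval_le_disk {p q : ℂ[X]} (hp : p.Monic) (n : ℕ) (hn : p.natDegree = n)
    (hq : q.Monic) (hqp : q ∣ p) (z : ℂ) (hz : ‖z‖ ≤ 1) :
    ‖q.eval z‖ ≤ K ^ n * bombieriNorm p := by
  have := Complex.norm_le_of_forall_mem_frontier_norm_le (U := Metric.ball (0:ℂ) 1)
    (f := fun z => q.eval z) Metric.isBounded_ball
    (q.differentiable.diffContOnCl) (C := K ^ n * bombieriNorm p) ?_ (z := z) ?_
  · exact this
  · intro w hw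
    rw [frontier_ball _ one_ne_zero] at hw
    exact norm_eval_le_circle hp n hn hq hqp w (by simpa using hw)
  · rw [closure_ball _ one_ne_zero]
    simpa using hz

theorem diskNorm_le {p q : ℂ[X]} (hp : p.Monic) (n : ℕ) (hn : p.natDegree = n)
    (hq : q.Monic) (hqp : q ∣ p) : diskNorm q ≤ K ^ n * bombieriNorm p := by
  apply csSup_le
  · exact (Metric.nonempty_closedBall.mpr zero_le_one).image _
  · rintro _ ⟨z, hz, rfl⟩
    exact norm_eval_le_disk hp n hn hq hqp z (by simpa using hz)

theorem le_diskNorm (q : ℂ[X]) (z : ℂ) (hz : ‖z‖ ≤ 1) : ‖q.eval z‖ ≤ diskNorm q := by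
  apply le_csSup
  · apply IsCompact.bddAbove
    apply (isCompact_closedBall (0:ℂ) 1).image
    fun_prop
  · exact ⟨z, by simpa using hz, rfl⟩

/-- sanity check: the supremum in `diskNorm` is a maximum. -/
theorem diskNorm_isGreatest (q : ℂ[X]) :
    IsGreatest ((fun z : ℂ => ‖q.eval z‖) '' Metric.closedBall (0 : ℂ) 1) (diskNorm q) := by
  apply IsCompact.isGreatest_sSup
  · apply (isCompact_closedBall (0:ℂ) 1).image
    fun_prop
  · exact (Metric.nonempty_closedBall.mpr zero_le_one).image _

theorem S_le (n : ℕ) : S n ≤ ENNReal.ofReal (K ^ n) := by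
  refine iSup_le fun p => iSup_le fun q => iSup_le fun hp => iSup_le fun hn => iSup_le fun hq =>
    iSup_le fun hqp => ?_
  apply ENNReal.ofReal_le_ofReal
  have := one_le_bombieriNorm p hp
  rw [div_le_iff₀ (by linarith)]
  exact diskNorm_le hp n hn hq hqp

theorem le_S {p q : ℂ[X]} (n : ℕ) (hp : p.Monic) (hn : p.natDegree = n) (hq : q.Monic)
    (hqp : q ∣ p) (hB : bombieriNorm p ≤ 1) (z : ℂ) (hz : ‖z‖ ≤ 1) (c : ℝ)
    (hc : c ≤ ‖q.eval z‖) : ENNReal.ofReal c ≤ S n := by
  have h1 : ENNReal.ofReal (diskNorm q / bombieriNorm p) ≤ S n := by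
    refine le_iSup_of_le p ?_
    refine le_iSup_of_le q ?_
    refine le_iSup_of_le hp ?_
    refine le_iSup_of_le hn ?_
    refine le_iSup_of_le hq ?_
    exact le_iSup_of_le hqp le_rfl
  refine le_trans (ENNReal.ofReal_le_ofReal ?_) h1
  have h2 := one_le_bombieriNorm p hp
  have h3 : bombieriNorm p = 1 := le_antisymm hB h2
  rw [h3, div_one]
  exact hc.trans (le_diskNorm q z hz)

/-- the divisor of `p` collecting the roots outside the disk of radius one about `1`. -/
theorem exists_divisor (p : ℂ[X]) (hp : p.Monic) :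
    ∃ q : ℂ[X], q.Monic ∧ q ∣ p ∧
      ‖q.eval 1‖ = (p.roots.map (fun α => max 1 ‖1 - α‖)).prod := by
  classical
  refine ⟨((p.roots.filter (fun α => 1 < ‖1 - α‖)).map (fun α => X - C α)).prod, ?_, ?_, ?_⟩
  · exact monic_multiset_prod_of_monic _ _ (fun α _ => monic_X_sub_C α)
  · have h1 : p = (p.roots.map (fun α => X - C α)).prod := by
      have := (IsAlgClosed.splits p).eq_prod_roots
      rw [hp.leadingCoeff] at this
      simpa using this
    conv_rhs => rw [h1]
    apply Multiset.prod_dvd_prod_of_le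
    exact Multiset.map_le_map (Multiset.filter_le _ _)
  · rw [eval_multiset_prod, Multiset.map_map]
    have h2 : ∀ s : Multiset ℂ, ‖(Multiset.map (eval 1 ∘ fun α => X - C α)
        (s.filter (fun α => 1 < ‖1 - α‖))).prod‖ = (s.map (fun α => max 1 ‖1 - α‖)).prod := by
      intro s
      induction s using Multiset.induction_on with
      | empty => simp
      | cons a s ih =>
        by_cases h : 1 < ‖1 - a‖
        · rw [Multiset.filter_cons_of_pos (p := fun α => 1 < ‖1 - α‖) _ h, Multiset.map_cons, Multiset.prod_cons, norm_mul, ih,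
            Multiset.map_cons, Multiset.prod_cons, max_eq_right h.le]
          simp
        · rw [Multiset.filter_cons_of_neg (p := fun α => 1 < ‖1 - α‖) _ h, ih, Multiset.map_cons, Multiset.prod_cons,
            max_eq_left (not_lt.mp h), one_mul]
    exact h2 _

theorem avg_lower (n : ℕ) :
    (n + 1 : ℕ) * Real.log K - Real.log (n + 2) ≤
    circleAverage (fun w => Real.log (max ‖((1 + X : ℂ[X]) ^ (n + 1)).eval w‖ (M (n + 1) n w))) 0 1 := by
  rw [log_K]
  have hrhs : ((n + 1 : ℕ) : ℝ) * circleAverage (fun w : ℂ => Real.log (1 + ‖1 + w‖)) 0 1 -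
      Real.log (n + 2) =
      circleAverage (fun w : ℂ => ((n + 1 : ℕ) : ℝ) • Real.log (1 + ‖1 + w‖) - Real.log (n + 2)) 0 1 := by
    rw [circleAverage_fun_sub, circleAverage_const, circleAverage_fun_smul, smul_eq_mul]
    · have hc : Continuous (fun w : ℂ => ((n + 1 : ℕ) : ℝ) • Real.log (1 + ‖1 + w‖)) := by
        have := continuous_logker
        fun_prop
      exact hc.continuousOn.circleIntegrable'
    · exact circleIntegrable_const _ _ _
  rw [hrhs]
  have hMpos : ∀ w, 0 < max ‖((1 + X : ℂ[X]) ^ (n + 1)).eval w‖ (M (n + 1) n w) := fun w =>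
    lt_of_lt_of_le one_pos (le_max_of_le_right (one_le_M _ _ _))
  apply circleAverage_mono
  · have hc : Continuous (fun w : ℂ => ((n + 1 : ℕ) : ℝ) • Real.log (1 + ‖1 + w‖) -
        Real.log (n + 2)) := by
      have := continuous_logker
      fun_prop
    exact hc.continuousOn.circleIntegrable'
  · apply Continuous.continuousOn ?_ |>.circleIntegrable'
    apply Continuous.log
    · have := continuous_M (n + 1) n
      fun_prop
    · intro x
      exact (hMpos x).ne'
  · intro w _
    have h2 : (0:ℝ) < 1 + ‖1 + w‖ := by positivity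
    rw [smul_eq_mul, ← Real.log_pow, ← Real.log_div (by positivity) (by positivity)]
    apply Real.log_le_log (by positivity)
    rw [div_le_iff₀ (by positivity)]
    have h3 : (1 + ‖1 + w‖) ^ (n + 1) =
        ∑ j ∈ Finset.range (n + 2), (((n + 1).choose j : ℕ) : ℝ) * ‖1 + w‖ ^ j := by
      rw [add_comm, add_pow]
      apply Finset.sum_congr rfl
      intro j _
      rw [one_pow]
      ring
    rw [h3]
    have h4 : ∀ j ∈ Finset.range (n + 2), (((n + 1).choose j : ℕ) : ℝ) * ‖1 + w‖ ^ j ≤
        max ‖((1 + X : ℂ[X]) ^ (n + 1)).eval w‖ (M (n + 1) n w) := by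
      intro j hj
      rw [Finset.mem_range] at hj
      rcases Nat.lt_or_ge j (n + 1) with h | h
      · apply le_max_of_le_right
        have := le_M (n + 1) n j (by omega) w
        rwa [norm_mul, norm_pow, Complex.norm_natCast] at this
      · have : j = n + 1 := by omega
        subst this
        apply le_max_of_le_left
        simp
    refine (Finset.sum_le_sum h4).trans ?_
    rw [Finset.sum_const, Finset.card_range, nsmul_eq_mul]
    push_cast
    rw [mul_comm]

theorem lower_bound (n : ℕ) : ENNReal.ofReal (K ^ (n + 1) / (n + 2)) ≤ S (n + 1) := by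
  obtain ⟨ξ, hξ, h1⟩ := choose_phases (n + 1) n ((1 + X) ^ (n + 1))
  set r : ℂ[X] := ∑ j ∈ Finset.range (n + 1), C (ξ j * (((n + 1).choose j : ℕ) : ℂ)) * X ^ j with hr
  have hrdeg : r.degree < ((n + 1 : ℕ) : WithBot ℕ) := by
    rw [← Polynomial.mem_degreeLT]
    apply Submodule.sum_mem
    intro j hj
    rw [Polynomial.mem_degreeLT]
    refine lt_of_le_of_lt (degree_C_mul_X_pow_le _ _) ?_
    exact_mod_cast Finset.mem_range.mp hj
  set p : ℂ[X] := X ^ (n + 1) + r with hp
  have hmonic : p.Monic := monic_X_pow_add hrdeg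
  have hdeg : p.natDegree = n + 1 := by
    have h0 : p.degree = ((n + 1 : ℕ) : WithBot ℕ) := by
      rw [hp, degree_add_eq_left_of_degree_lt, degree_X_pow]
      rwa [degree_X_pow]
    exact natDegree_eq_of_degree_eq_some h0
  have hrcoeff : ∀ j, j < n + 1 → r.coeff j = ξ j * (((n + 1).choose j : ℕ) : ℂ) := by
    intro j hj
    rw [hr, finsetSum_coeff]
    simp only [coeff_C_mul_X_pow]
    rw [Finset.sum_ite_eq]
    rw [if_pos (Finset.mem_range.mpr hj)]
  have hB : bombieriNorm p ≤ 1 := by
    rw [bombieriNorm]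
    apply Finset.sup'_le
    intro j hj
    rw [hdeg] at hj ⊢
    rw [Finset.mem_range] at hj
    have hc : (0:ℝ) < ((n + 1).choose j : ℝ) := by
      have : 0 < (n + 1).choose j := Nat.choose_pos (by omega)
      exact_mod_cast this
    rw [div_le_one hc]
    rcases Nat.lt_or_ge j (n + 1) with h | h
    · rw [hp, coeff_add, hrcoeff j h, coeff_X_pow, if_neg (by omega), zero_add, norm_mul, hξ,
        Complex.norm_natCast, one_mul]
    · have : j = n + 1 := by omega
      subst this
      have h5 : p.coeff (n + 1) = 1 := by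
        have := hmonic.coeff_natDegree
        rwa [hdeg] at this
      rw [h5]
      simp
  have hcomp : p.comp (C 1 * X + C 1) = (1 + X) ^ (n + 1) +
      ∑ j ∈ Finset.range (n + 1), C (ξ j * (((n + 1).choose j : ℕ) : ℂ)) * (1 + X) ^ j := by
    have h0 : r.comp (1 + X) = ∑ j ∈ Finset.range (n + 1),
        C (ξ j * (((n + 1).choose j : ℕ) : ℂ)) * (1 + X) ^ j := by
      rw [hr, ← Polynomial.coe_compRingHom_apply, map_sum]
      apply Finset.sum_congr rfl
      intro j _
      rw [Polynomial.coe_compRingHom_apply, mul_comp, C_comp, pow_comp, X_comp]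
    rw [← h0, hp, add_comp, pow_comp, X_comp, map_one, one_mul, add_comm (X : ℂ[X]) 1]
  obtain ⟨q, hq, hqp, hq1⟩ := exists_divisor p hmonic
  refine le_S (n + 1) hmonic hdeg hq hqp hB 1 (by simp) _ ?_
  rw [hq1, ← mahler_shift p hmonic 1 (by simp), hcomp]
  have h2 := (avg_lower n).trans h1
  have hpc : p.comp (C 1 * X + C 1) ≠ 0 := by
    intro h0
    have h3 := mahler_shift p hmonic 1 (by simp)
    rw [h0, mahlerMeasure_zero] at h3
    have h4 : 0 < (p.roots.map (fun α => max 1 ‖1 - α‖)).prod := by
      apply Multiset.prod_pos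
      intro a ha
      rw [Multiset.mem_map] at ha
      obtain ⟨α, _, rfl⟩ := ha
      exact lt_of_lt_of_le one_pos (le_max_left _ _)
    linarith
  rw [hcomp] at hpc
  have hpos := mahlerMeasure_pos_of_ne_zero hpc
  have hK := K_pos
  rw [← Real.log_le_log_iff (by positivity) hpos, Real.log_div (by positivity) (by positivity),
    Real.log_pow, ← logMahlerMeasure_eq_log_MahlerMeasure, logMahlerMeasure_def]
  exact h2

theorem tendsto_root_S : Tendsto (fun n : ℕ => S n ^ (1 / (n : ℝ))) atTop (𝓝 (ENNReal.ofReal K)) := by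
  have hK := K_pos
  have hlow : Tendsto (fun n : ℕ => ENNReal.ofReal (K / ((n : ℝ) + 1) ^ (1 / (n : ℝ)))) atTop
      (𝓝 (ENNReal.ofReal K)) := by
    apply ENNReal.tendsto_ofReal
    have h1 : Tendsto (fun x : ℝ => x ^ ((1:ℝ) / (1 * x + (-1)))) atTop (𝓝 1) :=
      tendsto_rpow_div_mul_add 1 1 (-1) (by norm_num)
    have h2 : Tendsto (fun n : ℕ => ((n : ℝ) + 1)) atTop atTop :=
      tendsto_atTop_add_const_right _ _ tendsto_natCast_atTop_atTop
    have h3 := h1.comp h2
    have h4 : Tendsto (fun n : ℕ => ((n : ℝ) + 1) ^ (1 / (n : ℝ))) atTop (𝓝 1) := by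
      refine h3.congr (fun n => ?_)
      simp only [Function.comp]
      congr 2
      ring
    have h5 := Tendsto.div (tendsto_const_nhds (x := K) (f := atTop)) h4 one_ne_zero
    rw [div_one] at h5
    exact h5
  refine tendsto_of_tendsto_of_tendsto_of_le_of_le' hlow tendsto_const_nhds ?_ ?_
  · filter_upwards [eventually_ge_atTop 1] with n hn
    obtain ⟨m, rfl⟩ : ∃ m, n = m + 1 := ⟨n - 1, by omega⟩
    have h1 := lower_bound m
    have hm : (0:ℝ) < ((m + 1 : ℕ) : ℝ) := by positivity
    have h2 : ENNReal.ofReal (K / (((m + 1 : ℕ) : ℝ) + 1) ^ (1 / ((m + 1 : ℕ) : ℝ))) =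
        ENNReal.ofReal (K ^ (m + 1) / (m + 2)) ^ (1 / ((m + 1 : ℕ) : ℝ)) := by
      rw [ENNReal.ofReal_rpow_of_nonneg (by positivity) (by positivity)]
      congr 1
      rw [Real.div_rpow (by positivity) (by positivity)]
      congr 1
      · rw [← Real.rpow_natCast, ← Real.rpow_mul hK.le, mul_one_div_cancel hm.ne', Real.rpow_one]
      · congr 1
        push_cast
        ring
    rw [h2]
    exact ENNReal.rpow_le_rpow h1 (by positivity)
  · filter_upwards [eventually_ge_atTop 1] with n hn
    have hn' : (0:ℝ) < (n : ℝ) := by exact_mod_cast hn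
    have h1 := ENNReal.rpow_le_rpow (S_le n) (z := 1 / (n : ℝ)) (by positivity)
    refine h1.trans (le_of_eq ?_)
    rw [ENNReal.ofReal_rpow_of_nonneg (by positivity) (by positivity)]
    congr 1
    rw [← Real.rpow_natCast, ← Real.rpow_mul hK.le, mul_one_div_cancel hn'.ne', Real.rpow_one]

/-- The answer to Q1 is yes: `limsup S_n^{1/n} = K`. -/
theorem result : limsup (fun n : ℕ => S n ^ (1 / (n : ℝ))) atTop = ENNReal.ofReal K :=
  tendsto_root_S.limsup_eq

end Pool.Agent.Results.MP_6d4084_an.LimsupEqK
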